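import Pool.Agent.H83.V.T3

/-!
Row W7 of the board V (descent of Theorem V): the selected reference has mostly the symbol of the
last point.
-/

set_option autoImplicit false

open MeasureTheory ProbabilityTheory Filter Topology Finset
open scoped Nat ENNReal

namespace Pool.Agent.H96.V

open Pool.Agent.H24.T2 (Pset)
open Pool.Agent.H67.AG (avgP ul Inv Rt Av SA kap JJ TT InvZ nxt triv tow XN PN TN XX PX TX prX Fac)
open Pool.Agent.H83.V

/-- iterates of the map on `XX` -/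
theorem TX_iter {X : Type} [MeasurableSpace X] [StandardBorelSpace X] (T : X ≃ᵐ X) (n l : ℕ)
    (p : XX X n) :
    (∀ b, ((TX T n)^[l] p).2.1 b = T^[l] (p.2.1 b)) ∧ ((TX T n)^[l] p).2.2 = T^[l] p.2.2 := by
  induction l generalizing p with
  | zero => exact ⟨fun b => rfl, rfl⟩
  | succ l ih =>
    rw [Function.iterate_succ_apply]
    obtain ⟨h1, h2⟩ := ih (TX T n p)
    refine ⟨fun b => ?_, ?_⟩
    · rw [h1 b, Function.iterate_succ_apply]
      rfl
    · rw [h2, Function.iterate_succ_apply]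
      rfl

theorem meas_wd (c : Vx) (Λ : ℕ) : Measurable (c.wd Λ) := by
  unfold Vx.wd
  exact measurable_pi_lambda _ fun l => c.am.comp (c.T.measurable.iterate _)

open Classical in
/-- the selection as a function of the words -/
noncomputable def selG (c : Vx) (Λ n : ℕ)
    (w : (Fin (n + 1) → Fin Λ → Fin c.q) × (Fin Λ → Fin c.q)) : Fin (n + 1) :=
  if h : (univ.filter fun b => ∃ b₁, c.hd (w.1 b) (w.1 b₁) ≤ c.uh / 2 ∧
      c.hd (w.1 b₁) w.2 ≤ 2 * c.ulo).Nonempty then
    (univ.filter fun b => ∃ b₁, c.hd (w.1 b) (w.1 b₁) ≤ c.uh / 2 ∧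
      c.hd (w.1 b₁) w.2 ≤ 2 * c.ulo).min' h else 0

/-- the words of the references and of the last point -/
def words (c : Vx) (Λ n : ℕ) (p : XX c.X (n + 1)) :
    (Fin (n + 1) → Fin Λ → Fin c.q) × (Fin Λ → Fin c.q) :=
  (fun b => c.wd Λ (p.2.1 b), c.wd Λ p.2.2)

theorem meas_words (c : Vx) (Λ n : ℕ) : Measurable (words c Λ n) := by
  unfold words
  refine Measurable.prodMk (measurable_pi_lambda _ fun b => ?_) ?_
  · exact (meas_wd c Λ).comp ((measurable_pi_apply b).comp (measurable_fst.comp measurable_snd))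
  · exact (meas_wd c Λ).comp (measurable_snd.comp measurable_snd)

theorem sel_eq (c : Vx) (Λ n : ℕ) (p : XX c.X (n + 1)) :
    c.sel Λ n p = selG c Λ n (words c Λ n p) := rfl

theorem meas_sel (c : Vx) (Λ n : ℕ) : Measurable (c.sel Λ n) := by
  have h : c.sel Λ n = selG c Λ n ∘ words c Λ n := rfl
  rw [h]
  exact (measurable_of_countable _).comp (meas_words c Λ n)

theorem meas_h (c : Vx) (Λ n : ℕ) : Measurable fun p : XX c.X (n + 1) =>
    c.hd (c.wd Λ (p.2.1 (c.sel Λ n p))) (c.wd Λ p.2.2) := by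
  have h : (fun p : XX c.X (n + 1) => c.hd (c.wd Λ (p.2.1 (c.sel Λ n p))) (c.wd Λ p.2.2)) =
      (fun w : (Fin (n + 1) → Fin Λ → Fin c.q) × (Fin Λ → Fin c.q) =>
        c.hd (w.1 (selG c Λ n w)) w.2) ∘ words c Λ n := rfl
  rw [h]
  exact (measurable_of_countable _).comp (meas_words c Λ n)

theorem hd_nonneg (c : Vx) {Λ : ℕ} (v w : Fin Λ → Fin c.q) : 0 ≤ c.hd v w := by
  unfold Vx.hd
  positivity

theorem hd_le_one (c : Vx) {Λ : ℕ} (v w : Fin Λ → Fin c.q) : c.hd v w ≤ 1 := by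
  unfold Vx.hd
  refine div_le_one_of_le₀ ?_ (Nat.cast_nonneg _)
  have h := Finset.card_le_univ (univ.filter fun l => v l ≠ w l)
  rw [Fintype.card_fin] at h
  exact_mod_cast h

theorem hd_self (c : Vx) {Λ : ℕ} (v : Fin Λ → Fin c.q) : c.hd v v = 0 := by
  unfold Vx.hd
  simp

theorem hd_tri (c : Vx) {Λ : ℕ} (u v w : Fin Λ → Fin c.q) :
    c.hd u w ≤ c.hd u v + c.hd v w := by
  classical
  unfold Vx.hd
  rw [← add_div]
  refine div_le_div_of_nonneg_right ?_ (Nat.cast_nonneg _)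
  have h1 : (univ.filter fun l => u l ≠ w l) ⊆
      (univ.filter fun l => u l ≠ v l) ∪ (univ.filter fun l => v l ≠ w l) := by
    intro l hl
    rw [Finset.mem_filter] at hl
    rw [Finset.mem_union, Finset.mem_filter, Finset.mem_filter]
    by_cases h : u l = v l
    · right
      exact ⟨Finset.mem_univ _, by rw [← h]; exact hl.2⟩
    · left
      exact ⟨Finset.mem_univ _, h⟩
  have h2 := (Finset.card_le_card h1).trans (Finset.card_union_le _ _)
  exact_mod_cast h2

/-- the average of the mismatches in the window `[0, Λ)` is the distance of the words -/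
theorem wa_eq (c : Vx) (Λ : ℕ) (x y : c.X) :
    c.wa 0 Λ (x, y) = c.hd (c.wd Λ x) (c.wd Λ y) := by
  classical
  unfold Vx.wa Av Vx.hd
  have e : ∀ l : ℕ, (TT c.T)^[l] (x, y) = (c.T^[l] x, c.T^[l] y) := by
    intro l
    induction l with
    | zero => rfl
    | succ l ih =>
      rw [Function.iterate_succ_apply', ih, Function.iterate_succ_apply',
        Function.iterate_succ_apply']
      rfl
  congr 1
  rw [Finset.card_filter, Finset.sum_range]
  push_cast
  refine Finset.sum_congr rfl fun l _ => ?_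
  rw [Function.iterate_zero_apply, one_mul, e]
  unfold Vx.mm Vx.wd
  by_cases h : c.a (c.T^[(l : ℕ)] x) = c.a (c.T^[(l : ℕ)] y)
  · simp [h]
  · simp [h]

/-- outside of the exceptional sets the selected reference is close to the last point -/
theorem hd_sel (hN : T_NUM) (c : Vx) (Λ n : ℕ) (p : XX c.X (n + 1)) (h1 : p ∉ c.NF Λ n)
    (h2 : p ∉ c.FE Λ 0 n) :
    c.hd (c.wd Λ (p.2.1 (c.sel Λ n p))) (c.wd Λ p.2.2) ≤ 4 * c.ulo := by
  classical
  obtain ⟨-, hu0, hu1, -, -⟩ := hN c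
  have h1' : ∃ b, c.hd (c.wd Λ (p.2.1 b)) (c.wd Λ p.2.2) ≤ 2 * c.ulo := by
    by_contra hcon
    push Not at hcon
    exact h1 hcon
  obtain ⟨b₀, hb₀⟩ := h1'
  have hne : (univ.filter fun b => ∃ b₁, c.hd (c.wd Λ (p.2.1 b)) (c.wd Λ (p.2.1 b₁)) ≤ c.uh / 2 ∧
      c.hd (c.wd Λ (p.2.1 b₁)) (c.wd Λ p.2.2) ≤ 2 * c.ulo).Nonempty := by
    refine ⟨b₀, ?_⟩
    rw [Finset.mem_filter]
    refine ⟨Finset.mem_univ _, b₀, ?_, hb₀⟩
    rw [hd_self]
    linarith
  have hs : c.sel Λ n p ∈ (univ.filter fun b => ∃ b₁,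
      c.hd (c.wd Λ (p.2.1 b)) (c.wd Λ (p.2.1 b₁)) ≤ c.uh / 2 ∧
      c.hd (c.wd Λ (p.2.1 b₁)) (c.wd Λ p.2.2) ≤ 2 * c.ulo) := by
    unfold Vx.sel
    rw [dif_pos hne]
    exact Finset.min'_mem _ hne
  rw [Finset.mem_filter] at hs
  obtain ⟨-, b₁, hb1, hb2⟩ := hs
  have h3 : c.hd (c.wd Λ (p.2.1 (c.sel Λ n p))) (c.wd Λ (p.2.1 b₁)) ≤ 2 * c.ulo := by
    by_cases e : c.sel Λ n p = b₁
    · rw [e, hd_self]
      linarith
    · have h4 : ¬ (c.ulo < |c.wa 0 Λ (p.2.1 (c.sel Λ n p), p.2.1 b₁) -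
            c.M (p.2.1 (c.sel Λ n p), p.2.1 b₁)| ∨
          c.ulo < |c.wa 0 (Λ - 0) (p.2.1 (c.sel Λ n p), p.2.1 b₁) -
            c.M (p.2.1 (c.sel Λ n p), p.2.1 b₁)| ∨
          c.ulo < |c.wa 0 Λ (p.2.1 (c.sel Λ n p), p.2.1 b₁) -
            c.M (p.2.1 (c.sel Λ n p), p.2.1 b₁)| ∨
          (c.ulo < c.M (p.2.1 (c.sel Λ n p), p.2.1 b₁) ∧
            c.M (p.2.1 (c.sel Λ n p), p.2.1 b₁) ≤ c.uh)) := by
        intro hcon
        exact h2 ⟨_, _, e, hcon⟩
      push Not at h4
      obtain ⟨h5, -, -, h6⟩ := h4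
      rw [wa_eq] at h5
      rw [abs_le] at h5
      by_contra hcon
      push Not at hcon
      have h7 : c.ulo < c.M (p.2.1 (c.sel Λ n p), p.2.1 b₁) := by linarith [h5.2]
      have h8 := h6 h7
      linarith [h5.1]
  linarith [hd_tri c (c.wd Λ (p.2.1 (c.sel Λ n p))) (c.wd Λ (p.2.1 b₁)) (c.wd Λ p.2.2)]

theorem pf_W7 (hN : T_NUM) : T_W7 := by
  classical
  intro c Λ n P hP ζ hmp hΛ hsel hNF hFE
  have hu0 : 0 < c.ulo := (hN c).2.1
  -- the sets
  set Dl : ℕ → Set (XX c.X (n + 1)) := fun l =>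
    {p | c.a (c.T^[l] (p.2.1 (c.sel Λ n p))) ≠ c.a (c.T^[l] p.2.2)} with hDl
  have mref : Measurable fun p : XX c.X (n + 1) => p.2.1 (c.sel Λ n p) := by
    have h : Measurable fun q : (Fin (n + 1) → c.X) × Fin (n + 1) => q.1 q.2 := by
      refine measurable_from_prod_countable_left fun b => ?_
      exact measurable_pi_apply b
    exact h.comp ((measurable_fst.comp measurable_snd).prodMk (meas_sel c Λ n))
  have mDl : ∀ l, MeasurableSet (Dl l) := by
    intro l
    have h1 : Measurable fun p : XX c.X (n + 1) => c.a (c.T^[l] (p.2.1 (c.sel Λ n p))) :=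
      c.am.comp ((c.T.measurable.iterate l).comp mref)
    have h2 : Measurable fun p : XX c.X (n + 1) => c.a (c.T^[l] p.2.2) :=
      c.am.comp ((c.T.measurable.iterate l).comp (measurable_snd.comp measurable_snd))
    exact (measurableSet_eq_fun h1 h2).compl
  -- one shift
  have hone : ∀ l, 2 * l ≤ Λ → P.real (Dl 0) ≤ ζ + P.real (Dl l) := by
    intro l hl
    have hmpl : MeasurePreserving ((TX c.T (n + 1))^[l]) P P := hmp.iterate l
    have h1 : P.real (Dl 0) = P.real (((TX c.T (n + 1))^[l]) ⁻¹' (Dl 0)) := by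
      unfold Measure.real
      rw [hmpl.measure_preimage (mDl 0).nullMeasurableSet]
    have h2 : ((TX c.T (n + 1))^[l]) ⁻¹' (Dl 0) ⊆
        {p | c.sel Λ n ((TX c.T (n + 1))^[l] p) ≠ c.sel Λ n p} ∪ Dl l := by
      intro p hp
      by_cases h : c.sel Λ n ((TX c.T (n + 1))^[l] p) = c.sel Λ n p
      · right
        obtain ⟨e1, e2⟩ := TX_iter c.T (n + 1) l p
        have h3 : c.a (((TX c.T (n + 1))^[l] p).2.1 (c.sel Λ n ((TX c.T (n + 1))^[l] p))) ≠
            c.a (((TX c.T (n + 1))^[l] p).2.2) := hp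
        rw [h, e1, e2] at h3
        exact h3
      · left
        exact h
    calc P.real (Dl 0) = P.real (((TX c.T (n + 1))^[l]) ⁻¹' (Dl 0)) := h1
      _ ≤ P.real ({p | c.sel Λ n ((TX c.T (n + 1))^[l] p) ≠ c.sel Λ n p} ∪ Dl l) :=
        measureReal_mono h2
      _ ≤ P.real {p | c.sel Λ n ((TX c.T (n + 1))^[l] p) ≠ c.sel Λ n p} + P.real (Dl l) :=
        measureReal_union_le _ _
      _ ≤ ζ + P.real (Dl l) := by
        have := hsel l hl
        linarith
  -- the distance of the words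
  set h : XX c.X (n + 1) → ℝ := fun p =>
    c.hd (c.wd Λ (p.2.1 (c.sel Λ n p))) (c.wd Λ p.2.2) with hh
  have mh : Measurable h := meas_h c Λ n
  have hint : Integrable h P := by
    refine Integrable.of_bound mh.aestronglyMeasurable 1 (Eventually.of_forall fun p => ?_)
    rw [Real.norm_eq_abs, abs_of_nonneg (hd_nonneg c _ _)]
    exact hd_le_one c _ _
  have mG : MeasurableSet {p | 4 * c.ulo < h p} := measurableSet_lt measurable_const mh
  have hG : P.real {p | 4 * c.ulo < h p} ≤ 2 * ζ := by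
    have h1 : {p | 4 * c.ulo < h p} ⊆ c.NF Λ n ∪ c.FE Λ 0 n := by
      intro p hp
      by_contra hcon
      rw [Set.mem_union, not_or] at hcon
      have h2 := hd_sel hN c Λ n p hcon.1 hcon.2
      exact absurd hp (not_lt.2 h2)
    calc P.real {p | 4 * c.ulo < h p} ≤ P.real (c.NF Λ n ∪ c.FE Λ 0 n) := measureReal_mono h1
      _ ≤ P.real (c.NF Λ n) + P.real (c.FE Λ 0 n) := measureReal_union_le _ _
      _ ≤ 2 * ζ := by linarith
  have iG : Integrable (fun p => ({p | 4 * c.ulo < h p}).indicator (1 : XX c.X (n + 1) → ℝ) p) P :=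
    (integrable_const (1 : ℝ)).indicator mG
  have hEh : ∫ p, h p ∂P ≤ 4 * c.ulo + 2 * ζ := by
    have h1 : ∫ p, h p ∂P ≤
        ∫ p, (4 * c.ulo + ({p | 4 * c.ulo < h p}).indicator (1 : XX c.X (n + 1) → ℝ) p) ∂P := by
      refine integral_mono hint ((integrable_const _).add iG) fun p => ?_
      change h p ≤ 4 * c.ulo + ({p | 4 * c.ulo < h p}).indicator (1 : XX c.X (n + 1) → ℝ) p
      by_cases hp : p ∈ {p | 4 * c.ulo < h p}
      · have h3 : h p ≤ 1 := hd_le_one c _ _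
        rw [Set.indicator_of_mem hp, Pi.one_apply]
        linarith
      · rw [Set.indicator_of_notMem hp]
        have h4 : ¬ (4 * c.ulo < h p) := hp
        linarith [not_lt.1 h4]
    have h2 : ∫ p, (4 * c.ulo + ({p | 4 * c.ulo < h p}).indicator (1 : XX c.X (n + 1) → ℝ) p) ∂P =
        4 * c.ulo + P.real {p | 4 * c.ulo < h p} := by
      rw [integral_add (integrable_const _) iG, integral_const, integral_indicator_one mG]
      simp
    linarith
  -- the sum over the shifts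
  have hsum : ∑ l ∈ range (Λ / 2 + 1), P.real (Dl l) ≤ Λ * ∫ p, h p ∂P := by
    have h1 : ∀ l, P.real (Dl l) = ∫ p, (Dl l).indicator (1 : XX c.X (n + 1) → ℝ) p ∂P := by
      intro l
      rw [integral_indicator_one (mDl l)]
    have h2 : ∀ l, Integrable (fun p => (Dl l).indicator (1 : XX c.X (n + 1) → ℝ) p) P :=
      fun l => (integrable_const (1 : ℝ)).indicator (mDl l)
    calc ∑ l ∈ range (Λ / 2 + 1), P.real (Dl l)
        = ∫ p, ∑ l ∈ range (Λ / 2 + 1), (Dl l).indicator (1 : XX c.X (n + 1) → ℝ) p ∂P := by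
          rw [integral_finsetSum _ fun l _ => h2 l]
          exact Finset.sum_congr rfl fun l _ => h1 l
      _ ≤ ∫ p, (Λ : ℝ) * h p ∂P := by
          refine integral_mono (integrable_finsetSum _ fun l _ => h2 l) (hint.const_mul _)
            fun p => ?_
          change ∑ l ∈ range (Λ / 2 + 1), (Dl l).indicator (1 : XX c.X (n + 1) → ℝ) p ≤
            (Λ : ℝ) * h p
          have h3 : (Λ : ℝ) * h p = ∑ l ∈ range Λ, (Dl l).indicator (1 : XX c.X (n + 1) → ℝ) p := by
            have hΛ' : (Λ : ℝ) ≠ 0 := by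
              have : (0 : ℝ) < Λ := by exact_mod_cast hΛ
              exact this.ne'
            change (Λ : ℝ) * (c.hd (c.wd Λ (p.2.1 (c.sel Λ n p))) (c.wd Λ p.2.2)) = _
            unfold Vx.hd
            rw [mul_div_cancel₀ _ hΛ', Finset.card_filter, Finset.sum_range]
            push_cast
            refine Finset.sum_congr rfl fun l _ => ?_
            unfold Vx.wd
            by_cases h4 : c.a (c.T^[(l : ℕ)] (p.2.1 (c.sel Λ n p))) = c.a (c.T^[(l : ℕ)] p.2.2)
            · have h5 : p ∉ Dl l := fun h => h h4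
              rw [Set.indicator_of_notMem h5]
              simp [h4]
            · have h5 : p ∈ Dl l := h4
              rw [Set.indicator_of_mem h5]
              simp [h4]
          rw [h3]
          refine Finset.sum_le_sum_of_subset_of_nonneg ?_ fun l _ _ => ?_
          · exact Finset.range_mono (by omega)
          · exact Set.indicator_nonneg (fun _ _ => zero_le_one) _
      _ = Λ * ∫ p, h p ∂P := integral_const_mul _ _
  -- the end
  have hall : ((Λ / 2 + 1 : ℕ) : ℝ) * P.real (Dl 0) ≤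
      ((Λ / 2 + 1 : ℕ) : ℝ) * ζ + Λ * (4 * c.ulo + 2 * ζ) := by
    have h1 : ∑ l ∈ range (Λ / 2 + 1), P.real (Dl 0) ≤
        ∑ l ∈ range (Λ / 2 + 1), (ζ + P.real (Dl l)) := by
      refine Finset.sum_le_sum fun l hl => hone l ?_
      have := Finset.mem_range.1 hl
      omega
    rw [Finset.sum_const, Finset.card_range, nsmul_eq_mul, Finset.sum_add_distrib,
      Finset.sum_const, Finset.card_range, nsmul_eq_mul] at h1
    have h2 : (Λ : ℝ) * ∫ p, h p ∂P ≤ Λ * (4 * c.ulo + 2 * ζ) :=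
      mul_le_mul_of_nonneg_left hEh (Nat.cast_nonneg _)
    linarith
  have hN' : (Λ : ℝ) ≤ 2 * ((Λ / 2 + 1 : ℕ) : ℝ) := by
    have : Λ ≤ 2 * (Λ / 2 + 1) := by omega
    exact_mod_cast this
  have hNpos : (0 : ℝ) < ((Λ / 2 + 1 : ℕ) : ℝ) := by
    have : 0 < Λ / 2 + 1 := by omega
    exact_mod_cast this
  have hζ : 0 ≤ ζ := le_trans measureReal_nonneg hNF
  have h5 : (Λ : ℝ) * (4 * c.ulo + 2 * ζ) ≤
      2 * ((Λ / 2 + 1 : ℕ) : ℝ) * (4 * c.ulo + 2 * ζ) :=
    mul_le_mul_of_nonneg_right hN' (by positivity)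
  have h6 : ((Λ / 2 + 1 : ℕ) : ℝ) * P.real (Dl 0) ≤
      ((Λ / 2 + 1 : ℕ) : ℝ) * (8 * c.ulo + 5 * ζ) := by nlinarith
  have h7 := le_of_mul_le_mul_left h6 hNpos
  exact h7

end Pool.Agent.H96.V
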